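import Mathlib
import Pool.Agent.TH118.SG.Family
import Pool.Agent.TH118.ZC.Iso

/-!
# Elements of the group which give the whole symplectic Lie algebra
-/

set_option linter.unusedSectionVars false

namespace Pool.Agent.TH118.TP

open Module Finset Function Pool.Agent.TH125.Gal Pool.Agent.TH118.SG Pool.Agent.TH118.ZC
open Pool.Agent.TH118.IS

section defs

variable {K : Type} [Field K] {T : Type} [AddCommGroup T] [Module K T] {G : Type} [Group G]

/-- `γ` acts by a unipotent map different from the identity, `(γ - 1) ^ 2 = 0` and the rank of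
`γ - 1` is at most two. -/
def UnipotentRankTwo (ρ : Representation K G T) (γ : G) : Prop :=
  ρ γ ≠ 1 ∧ (ρ γ - 1) * (ρ γ - 1) = 0 ∧ finrank K (LinearMap.range (ρ γ - 1)) ≤ 2

/-- `γ` is of finite order; for `a = 1` or `a = -1` the eigenspaces for the eigenvalues different
from `a` are of dimension at most one, there is such an eigenvalue, and the codimension `c` and the
dimension `d` of the eigenspace for `a` satisfy `c ^ 2 < 2 d`. -/
def SmallFinite (ρ : Representation K G T) (γ : G) : Prop :=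
  (∃ k : ℕ, 0 < k ∧ ρ γ ^ k = 1) ∧ ∃ a : K, a * a = 1 ∧
    (∀ α, α ≠ a → finrank K (Module.End.eigenspace (ρ γ) α) ≤ 1) ∧
    (∃ α, α ≠ a ∧ Module.End.eigenspace (ρ γ) α ≠ ⊥) ∧
    (finrank K T - finrank K (Module.End.eigenspace (ρ γ) a)) ^ 2 <
      2 * finrank K (Module.End.eigenspace (ρ γ) a)

/-- `γ` is of finite order, and the eigenvalues are divided into two nonempty sets, `A` and its
complement, both stable under `α ↦ α⁻¹`, such that for `α` in `A` and `β` in the complement at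
least one of the two eigenspaces is one-dimensional, `β / α` is the quotient of no other pair of
eigenvalues except the pair `(β⁻¹, α⁻¹)`, and geometric progressions of length three with the
quotient `β / α` in the set of eigenvalues are self-dual, with one-dimensional outer eigenspaces. -/
def IsolatedFinite (ρ : Representation K G T) (γ : G) : Prop :=
  (∃ k : ℕ, 0 < k ∧ ρ γ ^ k = 1) ∧
  ∃ A : Set K, (∃ α ∈ A, Module.End.eigenspace (ρ γ) α ≠ ⊥) ∧
    (∃ β ∉ A, Module.End.eigenspace (ρ γ) β ≠ ⊥) ∧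
    (∀ α, Module.End.eigenspace (ρ γ) α ≠ ⊥ → (α ∈ A ↔ α⁻¹ ∈ A)) ∧
    ∀ α ∈ A, ∀ β ∉ A, Module.End.eigenspace (ρ γ) α ≠ ⊥ → Module.End.eigenspace (ρ γ) β ≠ ⊥ →
      (finrank K (Module.End.eigenspace (ρ γ) α) = 1 ∨
        finrank K (Module.End.eigenspace (ρ γ) β) = 1) ∧
      (∀ α', Module.End.eigenspace (ρ γ) α' ≠ ⊥ →
        Module.End.eigenspace (ρ γ) (α' * (β * α⁻¹)) ≠ ⊥ → α' = α ∨ α' * β = 1) ∧
      ∀ α', Module.End.eigenspace (ρ γ) α' ≠ ⊥ →
        Module.End.eigenspace (ρ γ) (α' * (β * α⁻¹)) ≠ ⊥ →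
        Module.End.eigenspace (ρ γ) (α' * (β * α⁻¹) * (β * α⁻¹)) ≠ ⊥ →
        finrank K (Module.End.eigenspace (ρ γ) α') = 1 ∧
          α' * (α' * (β * α⁻¹) * (β * α⁻¹)) = 1

/-- Some element has two eigenvalues whose quotient is not a root of unity. -/
def Hyperbolic (ρ : Representation K G T) : Prop :=
  ∃ (F : G) (x y : T) (l m : K), x ≠ 0 ∧ y ≠ 0 ∧ ρ F x = l • x ∧ ρ F y = m • y ∧
    ∀ k : ℕ, 0 < k → l ^ k ≠ m ^ k

/-- The space is irreducible under all subgroups of finite index. -/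
def StronglyIrr (ρ : Representation K G T) : Prop :=
  ∀ Δ : Subgroup G, Δ.FiniteIndex → ∀ W : Submodule K T, (∀ g ∈ Δ, ∀ x ∈ W, ρ g x ∈ W) →
    W = ⊥ ∨ W = ⊤

/-- The element `γ` is of one of the three types. -/
def GoodElement (ρ : Representation K G T) (γ : G) : Prop :=
  UnipotentRankTwo ρ γ ∨ ((SmallFinite ρ γ ∨ IsolatedFinite ρ γ) ∧ Hyperbolic ρ)

end defs

variable {K : Type} [Field K] [CharZero K] [IsAlgClosed K] {T : Type} [AddCommGroup T]
  [Module K T] [FiniteDimensional K T] {E : Type} [AddCommGroup E] [Module K E]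
  [FiniteDimensional K E] {S : Type} [Fintype S] [DecidableEq S] {G : Type} [Group G]
  {B : T →ₗ[K] T →ₗ[K] K} {ρ : Representation K G T} {σ : G →* (E →ₗ[K] E)} {χ : G →* K}

/-- **The whole symplectic Lie algebra, isolated pairs.** -/
theorem iso_full (halt : ∀ v, B v v = 0) (hnd : ∀ u, (∀ v, B u v = 0) → u = 0)
    (hB : ∀ g x y, B (ρ g x) (ρ g y) = χ g * B x y) (hSI : Pool.Agent.TH125.Gal.SI ρ)
    {γ : G} (hχ : χ γ = 1) (hσ : σ γ = 1) (hin : IsolatedFinite ρ γ)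
    (F : G) {u v : T} (hu0 : u ≠ 0) (hv0 : v ≠ 0) {al be : K}
    (hu : ρ F u = al • u) (hv : ρ F v = be • v) (hab : ∀ k : ℕ, 0 < k → al ^ k ≠ be ^ k)
    (x y : T) : Pool.Agent.H204R3.SP.SS B x y ∈ LL S B ρ σ := by
  obtain ⟨⟨k, hk, hγ⟩, A, hA, hA', hdual, hpairs⟩ := hin
  have hX := SI_conv ⟨u, hu0⟩ hSI
  have hiso : SplitsIsolated (X := T) ρ χ γ := by
    refine ⟨A, hA, hA', fun α hα => ?_, fun α hα β hβ h1 h2 => ?_⟩
    · rw [hχ, one_mul]
      exact hdual α hα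
    · rw [hχ]
      exact hpairs α hα β hβ h1 h2
  obtain ⟨Y, hY, hYn⟩ := exists_PP (S := S) (σ := σ) (μ := χ) hB F hu0 hv0 hu hv hab
  obtain ⟨ν, hν, N, hN, hN2, hN0, hNr⟩ := iso_N (R := ρ) (χ := χ) (L := LP S B ρ σ) halt hB hnd hk
    hγ hX (fun g Y hY => LP_conj (μ := χ) hB g Y hY) ⟨Y, hY, hYn⟩
    (fun ν hν N hN => fun u w => (LL_of_Lnu (μ := χ) hB hσ hν hN).1 u w) hiso
  have hNL : N ∈ LL S B ρ σ := LL_of_Lnu (μ := χ) hB hσ hν hN
  have hconj : ∀ g : G, ∀ Y ∈ LL S B ρ σ, ρ g * Y * ρ g⁻¹ ∈ LL S B ρ σ := by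
    intro g Y hY
    have h1 := LL_conj (μ := χ) hB hY g
    exact h1
  have hbr : ∀ Y ∈ LL S B ρ σ, ∀ Z ∈ LL S B ρ σ, Y * Z - Z * Y ∈ LL S B ρ σ :=
    fun Y hY Z hZ => LL_bracket hY hZ
  have hsp : ∀ Y ∈ LL S B ρ σ, ∀ u w, B (Y u) w + B u (Y w) = 0 := fun Y hY u w => hY.1 u w
  exact full_of_N (R := ρ) (χ := χ) halt hnd hB hconj hbr hsp hX hNL hN2 hN0 hNr x y

/-- **The whole symplectic Lie algebra.** -/
theorem good_full (halt : ∀ v, B v v = 0) (hnd : ∀ u, (∀ v, B u v = 0) → u = 0)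
    (hB : ∀ g x y, B (ρ g x) (ρ g y) = χ g * B x y) (hSI : StronglyIrr ρ)
    {γ : G} (hχ : χ γ = 1) (hσ : σ γ = 1) (hin : GoodElement ρ γ) (x y : T) :
    Pool.Agent.H204R3.SP.SS B x y ∈ LL S B ρ σ := by
  rcases hin with ⟨h1, h2, h3⟩ | ⟨h1 | h1, F, u, v, l, m, hu0, hv0, hu, hv, hlm⟩
  · refine unip_full (χ := χ) (γ := γ) (N := ρ γ - 1) halt hnd hB hSI hχ hσ (fun x => ?_)
      (fun x => ?_) ?_ ?_ x y
    · rw [LinearMap.sub_apply, Module.End.one_apply]
      abel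
    · exact LinearMap.congr_fun h2 x
    · by_contra hcon
      push Not at hcon
      exact h1 (sub_eq_zero.1 (LinearMap.ext hcon))
    · rwa [← LinearMap.range_eq_map]
  · obtain ⟨⟨k, hk, hγ⟩, a, ha, hsim, hne, hsmall⟩ := h1
    exact small_full (χ := χ) halt hnd hB hSI hχ hσ hk hγ ha hsim hne hsmall F hu0 hv0 hu hv hlm x y
  · exact iso_full (χ := χ) halt hnd hB hSI hχ hσ h1 F hu0 hv0 hu hv hlm x y

end Pool.Agent.TH118.TP
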