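import Mathlib
import Pool.Agent.TH118.TP.Good
import Pool.Agent.H204R3.CM.Alt
import Pool.Agent.TH118.CU.Final

/-!
# Multilinear forms on products: contractions with the polarization
-/

set_option linter.unusedSectionVars false

namespace Pool.Agent.TH118.TP

open Module Finset Function Pool.Agent.TH125.Gal Pool.Agent.TH118.SG Pool.Agent.TH118.ZC

section defs

variable {K : Type} [Field K] {M : Type} [AddCommGroup M] [Module K M] {N : Type}
  [AddCommGroup N] [Module K N] {G : Type} [Group G]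

/-- Tate classes: the form is multiplied by `χ ^ i` under a subgroup of finite index. -/
def IsTate (τ : Representation K G N) (χ : G →* K) (i : ℕ) {b : ℕ}
    (ψ : MultilinearMap K (fun _ : Fin b => N) K) : Prop :=
  ∃ Δ : Subgroup G, Δ.FiniteIndex ∧ ∀ g ∈ Δ, ∀ y : Fin b → N,
    ψ (fun l => τ g (y l)) = χ g ^ i * ψ y

/-- Tate classes on products. -/
def IsTateTwo (ρ : Representation K G M) (τ : Representation K G N) (χ : G →* K) (i : ℕ) {a b : ℕ}
    (φ : MultilinearMap K (fun _ : Fin a => M) (MultilinearMap K (fun _ : Fin b => N) K)) : Prop :=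
  ∃ Δ : Subgroup G, Δ.FiniteIndex ∧ ∀ g ∈ Δ, ∀ (x : Fin a → M) (y : Fin b → N),
    φ (fun l => ρ g (x l)) (fun l => τ g (y l)) = χ g ^ i * φ x y

/-- The product of the values of the form on the pairs of variables given by `e`. -/
def contr (ω : M →ₗ[K] M →ₗ[K] K) {a m : ℕ} (e : Fin m × Fin 2 ≃ Fin a) (x : Fin a → M) : K :=
  ∏ l, ω (x (e (l, 0))) (x (e (l, 1)))

/-- The multilinear form `contr`. -/
noncomputable def contrM (ω : M →ₗ[K] M →ₗ[K] K) {a m : ℕ} (e : Fin m × Fin 2 ≃ Fin a) :
    MultilinearMap K (fun _ : Fin a => M) K :=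
  (Pool.Agent.H204R3.CM.prodMap (m := m) fun _ => bm ω).domDomCongr e

theorem contrM_apply (ω : M →ₗ[K] M →ₗ[K] K) {a m : ℕ} (e : Fin m × Fin 2 ≃ Fin a)
    (x : Fin a → M) : contrM ω e x = contr ω e x := rfl

/-- Product of a form and a vector. -/
def tens {E : Type} [AddCommGroup E] [Module K E] {a : ℕ}
    (f : MultilinearMap K (fun _ : Fin a => M) K) (w : E) :
    MultilinearMap K (fun _ : Fin a => M) E :=
  (LinearMap.toSpanSingleton K E w).compMultilinearMap f

theorem tens_apply {E : Type} [AddCommGroup E] [Module K E] {a : ℕ}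
    (f : MultilinearMap K (fun _ : Fin a => M) K) (w : E) (x : Fin a → M) :
    tens f w x = f x • w := rfl

/-- The action on the forms on the second factor. -/
def act (τ : Representation K G N) (χ : G →* K) (i b : ℕ) :
    G →* (MultilinearMap K (fun _ : Fin b => N) K →ₗ[K] MultilinearMap K (fun _ : Fin b => N) K) where
  toFun g :=
    { toFun := fun ψ => χ g ^ i • ψ.compLinearMap fun _ => τ g⁻¹
      map_add' := by
        intro ψ ψ'
        ext y
        simp [mul_add]
      map_smul' := by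
        intro c ψ
        ext y
        simp only [_root_.smul_apply, MultilinearMap.compLinearMap_apply, smul_eq_mul,
          RingHom.id_apply]
        ring }
  map_one' := by
    ext ψ y
    simp
  map_mul' := by
    intro g h
    ext ψ y
    simp only [map_mul, mul_inv_rev, mul_pow, LinearMap.coe_mk, AddHom.coe_mk, smul_apply,
      MultilinearMap.compLinearMap_apply, Module.End.mul_apply, smul_eq_mul, mul_assoc]

theorem act_apply (τ : Representation K G N) (χ : G →* K) (i b : ℕ) (g : G)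
    (ψ : MultilinearMap K (fun _ : Fin b => N) K) (y : Fin b → N) :
    act τ χ i b g ψ y = χ g ^ i * ψ fun l => τ g⁻¹ (y l) := rfl

end defs

section closed

variable {K : Type} [Field K] [CharZero K] {M : Type} [AddCommGroup M]
  [Module K M] [FiniteDimensional K M] {G : Type} [Group G] {ω : M →ₗ[K] M →ₗ[K] K}
  {ρ : Representation K G M}

/-- Equivariant maps with values in a space are combinations of contractions. -/
theorem mem_span {E : Type} [AddCommGroup E] [Module K E] {a : ℕ} {σ : G →* (E →ₗ[K] E)}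
    (halt : ∀ v, ω v v = 0) (hnd : ∀ u, (∀ v, ω u v = 0) → u = 0)
    (hall : ∀ x y, Pool.Agent.H204R3.SP.SS ω x y ∈ LL (Fin a) ω ρ σ)
    {h : MultilinearMap K (fun _ : Fin a => M) E} (hh : Eqv ρ σ h) :
    h ∈ Submodule.span K {f | ∃ (m : ℕ) (e : Fin m × Fin 2 ≃ Fin a) (w : E),
      f = tens (contrM ω e) w} := by
  classical
  have hsy : ∀ x y, ω x y = ((-1 : ℤ) : K) * ω y x := by
    intro x y
    have h1 := halt (x + y)
    rw [map_add, map_add, LinearMap.add_apply, LinearMap.add_apply, halt, halt, zero_add,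
      add_zero] at h1
    push_cast
    linear_combination h1
  set t := Module.finBasis K M with ht
  have h1 := gen_mem' (s := -1) rfl hsy hnd (fun u v => by rw [rk_eq_SS]; exact hall u v) hh t
  have h2 : ∀ F ∈ Pool.Agent.TH125.Nod.Gen (fun _ : Fin (finrank K M) => ())
      (Matrix.of fun i j => ω (t i) (t j)) (fun _ : Fin a => ()),
      ∃ f ∈ Submodule.span K {f : MultilinearMap K (fun _ : Fin a => M) E |
        ∃ (m : ℕ) (e : Fin m × Fin 2 ≃ Fin a) (w : E), f = tens (contrM ω e) w},
      ∀ r : Fin a → Fin (finrank K M), f (fun j => t (r j)) = F r := by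
    intro F hF
    induction hF using Submodule.span_induction with
    | mem F hF =>
      obtain ⟨m, e, w, rfl⟩ := hF
      refine ⟨tens (contrM ω e) w, Submodule.subset_span ⟨m, e, w, rfl⟩, fun r => ?_⟩
      rw [Pool.Agent.TH125.Nod.gen, if_pos (fun _ => rfl)]
      rfl
    | zero => exact ⟨0, Submodule.zero_mem _, fun r => rfl⟩
    | add F F' _ _ hF hF' =>
      obtain ⟨f, hf, h3⟩ := hF
      obtain ⟨f', hf', h3'⟩ := hF'
      refine ⟨f + f', Submodule.add_mem _ hf hf', fun r => ?_⟩
      rw [_root_.add_apply, h3, h3']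
      rfl
    | smul c F _ hF =>
      obtain ⟨f, hf, h3⟩ := hF
      refine ⟨c • f, Submodule.smul_mem _ _ hf, fun r => ?_⟩
      rw [_root_.smul_apply, h3]
      rfl
  obtain ⟨f, hf, h3⟩ := h2 _ h1
  have h4 : h = f := Basis.ext_multilinear (fun _ => t) fun r => (h3 r).symm
  rw [h4]
  exact hf

end closed

/-- Independent contractions. -/
theorem exists_indep {K : Type} [Field K] {M : Type} [AddCommGroup M] [Module K M]
    {ω : M →ₗ[K] M →ₗ[K] K} {E : Type} [AddCommGroup E] [Module K E] {a : ℕ}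
    {h : MultilinearMap K (fun _ : Fin a => M) E}
    (hh : h ∈ Submodule.span K {f | ∃ (m : ℕ) (e : Fin m × Fin 2 ≃ Fin a) (w : E),
      f = tens (contrM ω e) w}) :
    ∃ (n m : ℕ) (e : Fin n → (Fin m × Fin 2 ≃ Fin a)) (w : Fin n → E),
      LinearIndependent K (fun t => contrM ω (e t)) ∧ h = ∑ t, tens (contrM ω (e t)) (w t) := by
  classical
  have hm : ∀ {m m' : ℕ}, (Fin m × Fin 2 ≃ Fin a) → (Fin m' × Fin 2 ≃ Fin a) → m = m' := by
    intro m m' e e'
    have h1 := Fintype.card_congr e
    have h2 := Fintype.card_congr e'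
    simp only [Fintype.card_prod, Fintype.card_fin] at h1 h2
    omega
  by_cases hne : ∃ m : ℕ, Nonempty (Fin m × Fin 2 ≃ Fin a)
  · obtain ⟨m, ⟨e₀⟩⟩ := hne
    -- independent subset of the contractions
    set C : Set (MultilinearMap K (fun _ : Fin a => M) K) :=
      Set.range fun e : Fin m × Fin 2 ≃ Fin a => contrM ω e with hC
    obtain ⟨b, hb1, hb2, hb3⟩ := exists_linearIndependent K C
    have hbf : b.Finite := (Set.finite_range _).subset hb1
    have := hbf.fintype
    set n := Fintype.card b with hn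
    set ε := (Fintype.equivFin b).symm with hε
    have h1 : ∀ t : Fin n, ∃ e : Fin m × Fin 2 ≃ Fin a, contrM ω e = (ε t : MultilinearMap K
        (fun _ : Fin a => M) K) := fun t => hb1 (ε t).2
    choose e he using h1
    have hli : LinearIndependent K (fun t => contrM ω (e t)) := by
      have h2 : (fun t => contrM ω (e t)) = (fun x : b => (x : MultilinearMap K
          (fun _ : Fin a => M) K)) ∘ ε := by
        funext t
        exact he t
      rw [h2]
      exact hb3.comp _ ε.injective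
    have hspan : ∀ e' : Fin m × Fin 2 ≃ Fin a, ∃ c : Fin n → K,
        ∑ t, c t • contrM ω (e t) = contrM ω e' := by
      intro e'
      have h2 : contrM ω e' ∈ Submodule.span K b := by
        rw [hb2]
        exact Submodule.subset_span ⟨e', rfl⟩
      have h3 : b = Set.range (fun t => contrM ω (e t)) := by
        ext x
        constructor
        · intro hx
          refine ⟨ε.symm ⟨x, hx⟩, ?_⟩
          change contrM ω (e (ε.symm ⟨x, hx⟩)) = x
          rw [he, Equiv.apply_symm_apply]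
        · rintro ⟨t, rfl⟩
          change contrM ω (e t) ∈ b
          rw [he]
          exact (ε t).2
      rw [h3, Submodule.mem_span_range_iff_exists_fun] at h2
      exact h2
    have h4 : ∃ w : Fin n → E, h = ∑ t, tens (contrM ω (e t)) (w t) := by
      induction hh using Submodule.span_induction with
      | mem f hf =>
        obtain ⟨m', e', w, rfl⟩ := hf
        obtain rfl := hm e₀ e'
        obtain ⟨c, hc⟩ := hspan e'
        refine ⟨fun t => c t • w, ?_⟩
        ext x
        rw [tens_apply, ← hc, _root_.sum_apply, _root_.sum_apply, Finset.sum_smul]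
        refine Finset.sum_congr rfl fun t _ => ?_
        rw [_root_.smul_apply, tens_apply, smul_smul, smul_eq_mul, mul_comm]
      | zero =>
        refine ⟨0, ?_⟩
        ext x
        rw [_root_.sum_apply]
        simp [tens_apply]
      | add f f' _ _ hf hf' =>
        obtain ⟨w, hw⟩ := hf
        obtain ⟨w', hw'⟩ := hf'
        refine ⟨w + w', ?_⟩
        rw [hw, hw']
        ext x
        rw [_root_.add_apply, _root_.sum_apply, _root_.sum_apply,
          _root_.sum_apply, ← Finset.sum_add_distrib]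
        refine Finset.sum_congr rfl fun t _ => ?_
        rw [tens_apply, tens_apply, tens_apply, ← smul_add]
        rfl
      | smul c f _ hf =>
        obtain ⟨w, hw⟩ := hf
        refine ⟨c • w, ?_⟩
        rw [hw]
        ext x
        rw [_root_.smul_apply, _root_.sum_apply, _root_.sum_apply,
          Finset.smul_sum]
        refine Finset.sum_congr rfl fun t _ => ?_
        rw [tens_apply, tens_apply, Pi.smul_apply, smul_comm]
    obtain ⟨w, hw⟩ := h4
    exact ⟨n, m, e, w, hli, hw⟩
  · have h1 : h = 0 := by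
      have h2 : {f : MultilinearMap K (fun _ : Fin a => M) E | ∃ (m : ℕ)
          (e : Fin m × Fin 2 ≃ Fin a) (w : E), f = tens (contrM ω e) w} = ∅ := by
        ext f
        simp only [Set.mem_ofPred_eq, Set.mem_empty_iff_false, iff_false]
        rintro ⟨m, e, -⟩
        exact hne ⟨m, ⟨e⟩⟩
      rw [h2, Submodule.span_empty, Submodule.mem_bot] at hh
      exact hh
    refine ⟨0, 0, fun t => t.elim0, fun t => t.elim0, linearIndependent_empty_type, ?_⟩
    rw [h1]
    simp

section general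

variable {K : Type} [Field K] {M : Type} [AddCommGroup M] [Module K M] {N : Type}
  [AddCommGroup N] [Module K N] {G : Type} [Group G] {ω : M →ₗ[K] M →ₗ[K] K}
  {ρ : Representation K G M} {τ : Representation K G N} {χ : G →* K}

theorem act_one {j b : ℕ} {γ : G} (hχ : χ γ = 1) (hτ : τ γ = 1) : act τ χ j b γ = 1 := by
  have h1 : τ γ⁻¹ = 1 := by
    have h2 : τ γ * τ γ⁻¹ = 1 := by rw [← map_mul, mul_inv_cancel, map_one]
    rwa [hτ, one_mul] at h2
  ext ψ y
  rw [act_apply, hχ, one_pow, one_mul, h1]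
  rfl

theorem eqv_act {a b j : ℕ}
    {φ : MultilinearMap K (fun _ : Fin a => M) (MultilinearMap K (fun _ : Fin b => N) K)}
    (hφ : IsTateTwo ρ τ χ j φ) : Eqv ρ (act τ χ j b) φ := by
  obtain ⟨Δ, hΔ, h1⟩ := hφ
  refine ⟨Δ, hΔ, fun g hg x => ?_⟩
  ext y
  have h2 := h1 g hg x fun l => τ g⁻¹ (y l)
  rw [act_apply, ← h2]
  congr 1
  funext l
  rw [← Module.End.mul_apply, ← map_mul, mul_inv_cancel, map_one, Module.End.one_apply]

/-- **Tate classes on products.** -/
theorem tate_product_of (hω : ∀ g x y, ω (ρ g x) (ρ g y) = χ g * ω x y)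
    {a b j : ℕ} (habj : a + b = 2 * j)
    {φ : MultilinearMap K (fun _ : Fin a => M) (MultilinearMap K (fun _ : Fin b => N) K)}
    (hφ : IsTateTwo ρ τ χ j φ) (hspan : φ ∈ Submodule.span K {f | ∃ (m : ℕ)
      (e : Fin m × Fin 2 ≃ Fin a) (w : MultilinearMap K (fun _ : Fin b => N) K),
      f = tens (contrM ω e) w}) :
    ∃ (n m : ℕ) (e : Fin n → (Fin m × Fin 2 ≃ Fin a))
      (ψ : Fin n → MultilinearMap K (fun _ : Fin b => N) K),
      (∀ t, IsTate τ χ (j - m) (ψ t)) ∧ ∀ x y, φ x y = ∑ t, contr ω (e t) x * ψ t y := by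
  classical
  obtain ⟨n, m, e, ψ, hli, hsum⟩ := exists_indep hspan
  have hval : ∀ x y, φ x y = ∑ t, contr ω (e t) x * ψ t y := by
    intro x y
    rw [hsum, _root_.sum_apply, _root_.sum_apply]
    rfl
  have hχ0 : ∀ g : G, χ g ≠ 0 := by
    intro g h
    have h1 : χ g * χ g⁻¹ = 1 := by rw [← map_mul, mul_inv_cancel, map_one]
    rw [h, zero_mul] at h1
    exact zero_ne_one h1
  refine ⟨n, m, e, ψ, fun t => ?_, hval⟩
  have hm : m ≤ j := by
    have h1 := Fintype.card_congr (e t)
    simp only [Fintype.card_prod, Fintype.card_fin] at h1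
    omega
  obtain ⟨Δ, hΔ, h1⟩ := hφ
  refine ⟨Δ, hΔ, fun g hg y => ?_⟩
  have hcon : ∀ t (x : Fin a → M), contr ω (e t) (fun l => ρ g (x l)) =
      χ g ^ m * contr ω (e t) x := by
    intro t x
    unfold contr
    simp only [hω]
    rw [Finset.prod_mul_distrib, Finset.prod_const, Finset.card_univ, Fintype.card_fin]
  have h2 : ∑ t, (χ g ^ m * ψ t (fun l => τ g (y l)) - χ g ^ j * ψ t y) • contrM ω (e t) = 0 := by
    ext x
    have h3 := h1 g hg x y
    rw [hval, hval, Finset.mul_sum] at h3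
    rw [_root_.sum_apply]
    simp only [_root_.smul_apply, contrM_apply, smul_eq_mul, sub_mul,
      Finset.sum_sub_distrib, _root_.zero_apply]
    rw [sub_eq_zero]
    simp only [hcon] at h3
    refine Eq.trans ?_ (Eq.trans h3 ?_)
    · exact Finset.sum_congr rfl fun t _ => by ring
    · exact Finset.sum_congr rfl fun t _ => by ring
  have h4 := (Fintype.linearIndependent_iff.1 hli) _ h2 t
  have h5 : χ g ^ m * ψ t (fun l => τ g (y l)) = χ g ^ m * (χ g ^ (j - m) * ψ t y) := by
    rw [← mul_assoc, ← pow_add, Nat.add_sub_cancel' hm]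
    exact sub_eq_zero.1 h4
  exact mul_left_cancel₀ (pow_ne_zero _ (hχ0 g)) h5

end general

/-! Descent -/

section desc

open TensorProduct Pool.Agent.H204R3.SP

variable {k Ω : Type} [Field k] [Field Ω] [Algebra k Ω] {V : Type} [AddCommGroup V] [Module k V]
  {E : Type} [AddCommGroup E] [Module k E] {ν : Type} [Fintype ν] [DecidableEq ν] (b : Basis ν k V)

/-- The base change of a multilinear map with values in a vector space. -/
noncomputable def bcE {κ : Type} [Fintype κ] [DecidableEq κ]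
    (φ : MultilinearMap k (fun _ : κ => V) E) :
    MultilinearMap Ω (fun _ : κ => Ω ⊗[k] V) (Ω ⊗[k] E) :=
  ∑ I : κ → ν, (LinearMap.toSpanSingleton Ω (Ω ⊗[k] E)
    ((1 : Ω) ⊗ₜ[k] φ (fun l => b (I l)))).compMultilinearMap
    ((MultilinearMap.mkPiAlgebra Ω κ Ω).compLinearMap (fun l => (b.baseChange Ω).coord (I l)))

theorem bcE_basis {κ : Type} [Fintype κ] [DecidableEq κ]
    (φ : MultilinearMap k (fun _ : κ => V) E) (J : κ → ν) :
    bcE (Ω := Ω) b φ (fun l => b.baseChange Ω (J l)) = (1 : Ω) ⊗ₜ[k] φ (fun l => b (J l)) := by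
  unfold bcE
  rw [_root_.sum_apply]
  have h1 : ∀ I : κ → ν, ((LinearMap.toSpanSingleton Ω (Ω ⊗[k] E)
      ((1 : Ω) ⊗ₜ[k] φ (fun l => b (I l)))).compMultilinearMap
      ((MultilinearMap.mkPiAlgebra Ω κ Ω).compLinearMap (fun l => (b.baseChange Ω).coord (I l))))
      (fun l => b.baseChange Ω (J l)) =
      (if I = J then (1 : Ω) else 0) • ((1 : Ω) ⊗ₜ[k] φ (fun l => b (I l))) := by
    intro I
    rw [LinearMap.compMultilinearMap_apply, MultilinearMap.compLinearMap_apply,
      MultilinearMap.mkPiAlgebra_apply, LinearMap.toSpanSingleton_apply]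
    congr 1
    have h2 : ∀ l, ((b.baseChange Ω).coord (I l)) (b.baseChange Ω (J l)) =
        if I l = J l then 1 else 0 := by
      intro l
      rw [Basis.coord_apply, Basis.repr_self, Finsupp.single_apply]
      by_cases h : I l = J l
      · rw [if_pos h, if_pos h.symm]
      · rw [if_neg h, if_neg (fun h' => h h'.symm)]
    rw [Finset.prod_congr rfl (fun l _ => h2 l)]
    by_cases h : I = J
    · rw [if_pos h, h]
      exact Finset.prod_eq_one fun l _ => if_pos rfl
    · rw [if_neg h]
      obtain ⟨l, hl⟩ := Function.ne_iff.1 h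
      exact Finset.prod_eq_zero (Finset.mem_univ l) (if_neg hl)
  rw [Finset.sum_congr rfl (fun I _ => h1 I)]
  simp only [ite_smul, one_smul, zero_smul, Finset.sum_ite_eq', Finset.mem_univ, if_true]

theorem bcE_one {κ : Type} [Fintype κ] [DecidableEq κ]
    (φ : MultilinearMap k (fun _ : κ => V) E) (v : κ → V) :
    bcE (Ω := Ω) b φ (fun l => (1 : Ω) ⊗ₜ[k] v l) = (1 : Ω) ⊗ₜ[k] φ v := by
  let inc : V →ₗ[k] Ω ⊗[k] V := TensorProduct.mk k Ω V 1
  let inc' : E →ₗ[k] Ω ⊗[k] E := TensorProduct.mk k Ω E 1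
  let A : MultilinearMap k (fun _ : κ => V) (Ω ⊗[k] E) :=
    ((bcE (Ω := Ω) b φ).restrictScalars k).compLinearMap (fun _ => inc)
  let B : MultilinearMap k (fun _ : κ => V) (Ω ⊗[k] E) := inc'.compMultilinearMap φ
  have h : A = B := by
    refine Basis.ext_multilinear (fun _ => b) fun I => ?_
    have h1 := bcE_basis (Ω := Ω) b φ I
    change (bcE (Ω := Ω) b φ) (fun l => (1 : Ω) ⊗ₜ[k] b (I l)) = (1 : Ω) ⊗ₜ[k] φ (fun l => b (I l))
    rw [← h1]
    congr 1
    funext l
    rw [Basis.baseChange_apply]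
  exact congrArg (fun F : MultilinearMap k (fun _ : κ => V) (Ω ⊗[k] E) => F v) h

variable {Γ : Type} [Group Γ] {ρ : Representation k Γ V} {σ : Γ →* (E →ₗ[k] E)}

theorem bcE_eqv {κ : Type} [Fintype κ] [DecidableEq κ]
    {φ : MultilinearMap k (fun _ : κ => V) E} (hφ : Eqv ρ σ φ) :
    Eqv (bcr ρ Ω) (bcr (Γ := Γ) (V := E) σ Ω) (bcE (Ω := Ω) b φ) := by
  obtain ⟨Δ, hΔ, h⟩ := hφ
  refine ⟨Δ, hΔ, fun s hs => ?_⟩
  have h1 : (bcE (Ω := Ω) b φ).compLinearMap (fun _ => bcr ρ Ω s) =
      (bcr (Γ := Γ) (V := E) σ Ω s).compMultilinearMap (bcE (Ω := Ω) b φ) := by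
    refine Basis.ext_multilinear (fun _ => b.baseChange Ω) fun I => ?_
    change (bcE (Ω := Ω) b φ) (fun l => bcr ρ Ω s (b.baseChange Ω (I l))) =
      bcr (Γ := Γ) (V := E) σ Ω s ((bcE (Ω := Ω) b φ) (fun l => b.baseChange Ω (I l)))
    rw [bcE_basis, bcr_tmul]
    have h2 : ∀ l, bcr ρ Ω s (b.baseChange Ω (I l)) = (1 : Ω) ⊗ₜ[k] ρ s (b (I l)) := by
      intro l
      rw [Basis.baseChange_apply, bcr_tmul]
    simp only [h2]
    rw [bcE_one, h s hs]
  intro v
  exact congrArg (fun F : MultilinearMap Ω (fun _ : κ => Ω ⊗[k] V) (Ω ⊗[k] E) => F v) h1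

/-- Descent of the combinations of contractions. -/
theorem mem_span_desc {a : ℕ} (ω : V →ₗ[k] V →ₗ[k] k)
    {φ : MultilinearMap k (fun _ : Fin a => V) E}
    (h : bcE (Ω := Ω) b φ ∈ Submodule.span Ω {f | ∃ (m : ℕ) (e : Fin m × Fin 2 ≃ Fin a)
      (w : Ω ⊗[k] E), f = tens (contrM (bcb Ω ω) e) w}) :
    φ ∈ Submodule.span k {f | ∃ (m : ℕ) (e : Fin m × Fin 2 ≃ Fin a) (w : E),
      f = tens (contrM ω e) w} := by
  obtain ⟨π, hπ⟩ := LinearMap.exists_leftInverse_of_injective
    ((Algebra.linearMap k Ω)) (LinearMap.ker_eq_bot.2 (algebraMap k Ω).injective)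
  have hπ1 : π 1 = 1 := by
    have h1 := LinearMap.congr_fun hπ 1
    rwa [LinearMap.comp_apply, Algebra.linearMap_apply, map_one, LinearMap.id_apply] at h1
  -- the retraction
  let r : Ω ⊗[k] E →ₗ[k] E := (TensorProduct.lid k E).toLinearMap ∘ₗ (LinearMap.rTensor E π)
  have hr : ∀ (c : Ω) (x : E), r (c ⊗ₜ[k] x) = π c • x := by
    intro c x
    change (TensorProduct.lid k E) (LinearMap.rTensor E π (c ⊗ₜ[k] x)) = _
    rw [LinearMap.rTensor_tmul, TensorProduct.lid_tmul]
  let inc : V →ₗ[k] Ω ⊗[k] V := TensorProduct.mk k Ω V 1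
  let res : MultilinearMap Ω (fun _ : Fin a => Ω ⊗[k] V) (Ω ⊗[k] E) →
      MultilinearMap k (fun _ : Fin a => V) (Ω ⊗[k] E) := fun F =>
    (F.restrictScalars k).compLinearMap (fun _ => inc)
  have key : ∀ F ∈ Submodule.span Ω {f | ∃ (m : ℕ) (e : Fin m × Fin 2 ≃ Fin a)
      (w : Ω ⊗[k] E), f = tens (contrM (bcb Ω ω) e) w}, ∀ q : Ω ⊗[k] E →ₗ[k] E,
      q.compMultilinearMap (res F) ∈
      Submodule.span k {f | ∃ (m : ℕ) (e : Fin m × Fin 2 ≃ Fin a) (w : E),
        f = tens (contrM ω e) w} := by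
    intro F hF
    induction hF using Submodule.span_induction with
    | mem F hF =>
      obtain ⟨m, e, w, rfl⟩ := hF
      intro q
      refine Submodule.subset_span ⟨m, e, q w, ?_⟩
      ext x
      change q (contr (bcb Ω ω) e (fun l => (1 : Ω) ⊗ₜ[k] x l) • w) = contr ω e x • q w
      have h1 : contr (bcb Ω ω) e (fun l => (1 : Ω) ⊗ₜ[k] x l) = algebraMap k Ω (contr ω e x) := by
        unfold contr
        rw [map_prod]
        exact Finset.prod_congr rfl fun l _ => bcb_one ω _ _
      rw [h1, algebraMap_smul, map_smul]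
    | zero =>
      intro q
      have h1 : q.compMultilinearMap (res 0) = 0 := by
        ext x
        exact map_zero q
      rw [h1]
      exact Submodule.zero_mem _
    | add F F' _ _ hF hF' =>
      intro q
      have h1 : q.compMultilinearMap (res (F + F')) =
          q.compMultilinearMap (res F) + q.compMultilinearMap (res F') := by
        ext x
        exact map_add q _ _
      rw [h1]
      exact Submodule.add_mem _ (hF q) (hF' q)
    | smul c F _ hF =>
      intro q
      exact hF (q ∘ₗ (LinearMap.lsmul Ω (Ω ⊗[k] E) c).restrictScalars k)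
  have h1 := key _ h r
  have h2 : r.compMultilinearMap (res (bcE (Ω := Ω) b φ)) = φ := by
    ext x
    change r (bcE (Ω := Ω) b φ (fun l => (1 : Ω) ⊗ₜ[k] x l)) = φ x
    rw [bcE_one, hr, hπ1, one_smul]
  rwa [h2] at h1

end desc

section main

open TensorProduct Pool.Agent.H204R3.SP Pool.Agent.H204R3.GP Pool.Agent.W522.U
open Pool.Agent.TH118.CU

variable {k Ω : Type} [Field k] [CharZero k] [Field Ω] [CharZero Ω] [IsAlgClosed Ω] [Algebra k Ω]
  {V : Type} [AddCommGroup V] [Module k V] [FiniteDimensional k V] {N : Type} [AddCommGroup N]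
  [Module k N] [FiniteDimensional k N] {Γ : Type} [Group Γ] {ρ : Representation k Γ V}
  {τ : Representation k Γ N} {χ : Γ →* k} {ω : V →ₗ[k] V →ₗ[k] k}

/-- **Tate classes on products.** -/
theorem tate_product (halt : ∀ v, ω v v = 0) (hnd : ∀ u, (∀ v, ω u v = 0) → u = 0)
    (hω : ∀ g x y, ω (ρ g x) (ρ g y) = χ g * ω x y) (hSI : StronglyIrr (bcr ρ Ω))
    {γ : Γ} (hχ : χ γ = 1) (hτ : τ γ = 1) (hin : GoodElement (bcr ρ Ω) γ) {a b j : ℕ}
    (habj : a + b = 2 * j)
    {φ : MultilinearMap k (fun _ : Fin a => V) (MultilinearMap k (fun _ : Fin b => N) k)}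
    (hφ : IsTateTwo ρ τ χ j φ) :
    ∃ (n m : ℕ) (e : Fin n → (Fin m × Fin 2 ≃ Fin a))
      (ψ : Fin n → MultilinearMap k (fun _ : Fin b => N) k),
      (∀ t, IsTate τ χ (j - m) (ψ t)) ∧ ∀ x y, φ x y = ∑ t, contr ω (e t) x * ψ t y := by
  classical
  refine tate_product_of hω habj hφ (mem_span_desc (Ω := Ω) (Module.finBasis k V) ω ?_)
  have hr1 : ∀ u, (∀ v, ω v u = 0) → u = 0 := by
    intro u h
    refine hnd u fun v => ?_
    have h1 := halt (u + v)
    simp only [map_add, LinearMap.add_apply, halt, zero_add, add_zero, h v] at h1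
    exact h1
  have hσ : bcr (Γ := Γ) (V := MultilinearMap k (fun _ : Fin b => N) k) (act τ χ j b) Ω γ = 1 := by
    apply LinearMap.ext
    intro z
    change ((act τ χ j b γ).baseChange Ω) z = z
    rw [act_one hχ hτ]
    change (LinearMap.baseChange Ω LinearMap.id) z = z
    rw [LinearMap.baseChange_id]
    rfl
  refine mem_span (ρ := bcr ρ Ω) (σ := bcr (Γ := Γ)
    (V := MultilinearMap k (fun _ : Fin b => N) k) (act τ χ j b) Ω)
    (bcb_alt (Ω := Ω) ω halt)
    (fun u hu => bcb_nondeg_left ω hr1 hnd u hu)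
    (fun x y => ?_) (bcE_eqv _ (eqv_act hφ))
  exact good_full (S := Fin a) (χ := bcc χ Ω) (bcb_alt (Ω := Ω) ω halt)
    (fun u hu => bcb_nondeg_left ω hr1 hnd u hu)
    (bcb_inv (Ω := Ω) ρ χ ω hω) hSI (by rw [bcc_apply, hχ, map_one]) hσ hin x y

end main

end Pool.Agent.TH118.TP
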