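import Mathlib
import Pool.Agent.TH118.TP.Forms
import Pool.Agent.TH118.MT.Defs

/-!
# The Mumford-Tate conjecture for products
-/

set_option linter.unusedSectionVars false

namespace Pool.Agent.TH118.TP

open Module Finset Function Pool.Agent.H204R3.SP Pool.Agent.H204R3.GP Pool.Agent.TH118.MT

section mix

variable {R : Type} [CommRing R] {M N : Type} [AddCommGroup M] [Module R M] [AddCommGroup N]
  [Module R N] {κ α β : Type} [Fintype κ] [Fintype α] [Fintype β]

/-- The product of a form in the first components of some variables and a form in the second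
components of the other variables. -/
noncomputable def mix (e : α ⊕ β ≃ κ) (C : MultilinearMap R (fun _ : α => M) R)
    (F : MultilinearMap R (fun _ : β => N) R) : MultilinearMap R (fun _ : κ => M × N) R :=
  ((LinearMap.mul' R R).compMultilinearMap
    (MultilinearMap.domCoprod (C.compLinearMap fun _ => LinearMap.fst R M N)
      (F.compLinearMap fun _ => LinearMap.snd R M N))).domDomCongr e

theorem mix_apply (e : α ⊕ β ≃ κ) (C : MultilinearMap R (fun _ : α => M) R)
    (F : MultilinearMap R (fun _ : β => N) R) (v : κ → M × N) :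
    mix e C F v = C (fun p => (v (e (Sum.inl p))).1) * F (fun q => (v (e (Sum.inr q))).2) := rfl

end mix

section rep

variable {k V N Γ : Type} [Field k] [AddCommGroup V] [Module k V] [AddCommGroup N] [Module k N]
  [Group Γ]

/-- The direct sum of two representations. -/
def sumRep (ρ : Representation k Γ V) (τ : Representation k Γ N) : Representation k Γ (V × N) where
  toFun g := (ρ g).prodMap (τ g)
  map_one' := by
    rw [map_one, map_one]
    rfl
  map_mul' g h := by
    rw [map_mul, map_mul]
    rfl

theorem sumRep_apply (ρ : Representation k Γ V) (τ : Representation k Γ N) (g : Γ) (x : V × N) :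
    sumRep ρ τ g x = (ρ g x.1, τ g x.2) := rfl

end rep

section split

variable {k V N Γ : Type} [Field k] [AddCommGroup V] [Module k V] [AddCommGroup N] [Module k N]
  [Group Γ] {κ : Type} [Fintype κ] [DecidableEq κ] (s : Finset κ)

/-- The variables in `s` and the other variables. -/
noncomputable def spl : Fin (Fintype.card {i // i ∈ s}) ⊕ Fin (Fintype.card {i // ¬ i ∈ s}) ≃ κ :=
  (Equiv.sumCongr (Fintype.equivFin _).symm (Fintype.equivFin _).symm).trans
    (Equiv.sumCompl (· ∈ s))

theorem spl_inl (p : Fin (Fintype.card {i // i ∈ s})) : spl s (Sum.inl p) ∈ s :=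
  ((Fintype.equivFin {i // i ∈ s}).symm p).2

theorem spl_inr (q : Fin (Fintype.card {i // ¬ i ∈ s})) : spl s (Sum.inr q) ∉ s :=
  ((Fintype.equivFin {i // ¬ i ∈ s}).symm q).2

/-- The component of a form for the set `s` of variables. -/
noncomputable def compo (φ : MultilinearMap k (fun _ : κ => V × N) k) :
    MultilinearMap k (fun _ : Fin (Fintype.card {i // i ∈ s}) => V)
      (MultilinearMap k (fun _ : Fin (Fintype.card {i // ¬ i ∈ s}) => N) k) :=
  (MultilinearMap.compLinearMapₗ (fun _ => LinearMap.inr k V N)).compMultilinearMap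
    ((MultilinearMap.currySum (φ.domDomCongr (spl s).symm)).compLinearMap
      fun _ => LinearMap.inl k V N)

theorem compo_apply (φ : MultilinearMap k (fun _ : κ => V × N) k)
    (x : Fin (Fintype.card {i // i ∈ s}) → V) (y : Fin (Fintype.card {i // ¬ i ∈ s}) → N) :
    compo s φ x y = φ fun i => Sum.elim (fun p => ((x p, 0) : V × N)) (fun q => (0, y q))
      ((spl s).symm i) := by
  change φ _ = φ _
  congr 1

/-- The decomposition of a form. -/
theorem decomp (φ : MultilinearMap k (fun _ : κ => V × N) k) (v : κ → V × N) :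
    φ v = ∑ s : Finset κ, compo s φ (fun p => (v (spl s (Sum.inl p))).1)
      (fun q => (v (spl s (Sum.inr q))).2) := by
  have h1 : v = (fun i => ((v i).1, 0)) + fun i => (0, (v i).2) := by
    funext i
    rw [Pi.add_apply, Prod.mk_add_mk, add_zero, zero_add]
  conv_lhs => rw [h1]
  rw [MultilinearMap.map_add_univ]
  refine Finset.sum_congr rfl fun s _ => ?_
  rw [compo_apply]
  congr 1
  funext i
  obtain ⟨t, rfl⟩ := (spl s).surjective i
  rw [Equiv.symm_apply_apply]
  rcases t with p | q
  · rw [Finset.piecewise_eq_of_mem _ _ _ (spl_inl s p)]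
    rfl
  · rw [Finset.piecewise_eq_of_notMem _ _ _ (spl_inr s q)]
    rfl

theorem compo_tate {ρ : Representation k Γ V} {τ : Representation k Γ N} {χ : Γ →* k} {j : ℕ}
    {φ : MultilinearMap k (fun _ : κ => V × N) k}
    (hφ : ∃ Δ : Subgroup Γ, Δ.FiniteIndex ∧ ∀ g ∈ Δ, ∀ v : κ → V × N,
      φ (fun l => sumRep ρ τ g (v l)) = χ g ^ j * φ v) : IsTateTwo ρ τ χ j (compo s φ) := by
  obtain ⟨Δ, hΔ, h⟩ := hφ
  refine ⟨Δ, hΔ, fun g hg x y => ?_⟩
  rw [compo_apply, compo_apply, ← h g hg]
  congr 1
  funext i
  rcases (spl s).symm i with p | q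
  · simp only [Sum.elim_inl, sumRep_apply, map_zero]
  · simp only [Sum.elim_inr, sumRep_apply, map_zero]

end split

section main

variable {k Ω : Type} [Field k] [CharZero k] [Field Ω] [CharZero Ω] [IsAlgClosed Ω] [Algebra k Ω]
  {V : Type} [AddCommGroup V] [Module k V] [FiniteDimensional k V] {N : Type} [AddCommGroup N]
  [Module k N] [FiniteDimensional k N] {Γ : Type} [Group Γ] {ρ : Representation k Γ V}
  {τ : Representation k Γ N} {χ : Γ →* k} {ω : V →ₗ[k] V →ₗ[k] k}
  {W T : Type} [AddCommGroup W] [Module ℚ W] [AddCommGroup T] [Module ℂ T]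
  {W' T' : Type} [AddCommGroup W'] [Module ℚ W'] [AddCommGroup T'] [Module ℂ T']
  {per : W →+ T} {comp : W →+ V} {per' : W' →+ T'} {comp' : W' →+ N} {ω₀ : W →ₗ[ℚ] W →ₗ[ℚ] ℚ}

/-- Products of the polarization and of Hodge classes are Hodge classes. -/
theorem mix_hodge (hω₀ : IsHodgeBilinear per ω₀) (hωω : ∀ x y, ω (comp x) (comp y) = ((ω₀ x y : ℚ) : k))
    {j m a b : ℕ} {m' : ℕ} (e : Fin a ⊕ Fin b ≃ Fin j × Fin 2) (ee : Fin m × Fin 2 ≃ Fin a)
    (r : Fin b ≃ Fin m' × Fin 2) {F : MultilinearMap k (fun _ : Fin m' × Fin 2 => N) k}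
    (hF : F ∈ HodgeSpan (k := k) per' comp' m') :
    mix e (contrM ω ee) (F.domDomCongr r.symm) ∈
      HodgeSpan (k := k) (per.prodMap per') (comp.prodMap comp') j := by
  rw [HodgeSpan] at hF
  induction hF using Submodule.span_induction with
  | mem F hF =>
    obtain ⟨ψ, ⟨Ψ, hΨ, hΨz⟩, hc⟩ := hF
    obtain ⟨E, hE, hEz⟩ := hω₀
    refine Submodule.subset_span ⟨mix e (contrM ω₀ ee) (ψ.domDomCongr r.symm), ?_, ?_⟩
    · refine ⟨mix e (contrM E ee) (Ψ.domDomCongr r.symm), fun v => ?_, fun z hz u => ?_⟩
      · rw [mix_apply, mix_apply]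
        push_cast
        congr 1
        · rw [contrM_apply, contrM_apply, contr, contr]
          push_cast
          refine Finset.prod_congr rfl fun l _ => ?_
          exact hE _ _
        · exact hΨ _
      · rw [mix_apply, mix_apply]
        congr 1
        · rw [contrM_apply, contrM_apply, contr, contr]
          refine Finset.prod_congr rfl fun l _ => ?_
          exact hEz z hz _ _
        · exact hΨz z hz _
    · intro v
      rw [mix_apply, mix_apply]
      push_cast
      congr 1
      · rw [contrM_apply, contrM_apply, contr, contr]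
        push_cast
        refine Finset.prod_congr rfl fun l _ => ?_
        exact hωω _ _
      · exact hc _
  | zero =>
    have h1 : mix e (contrM ω ee) ((0 : MultilinearMap k (fun _ : Fin m' × Fin 2 => N)
        k).domDomCongr r.symm) = 0 := by
      ext v
      rw [mix_apply]
      exact mul_zero _
    rw [h1]
    exact Submodule.zero_mem _
  | add F F' _ _ h h' =>
    have h1 : mix e (contrM ω ee) ((F + F').domDomCongr r.symm) =
        mix e (contrM ω ee) (F.domDomCongr r.symm) +
          mix e (contrM ω ee) (F'.domDomCongr r.symm) := by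
      ext v
      rw [_root_.add_apply, mix_apply, mix_apply, mix_apply]
      exact mul_add _ _ _
    rw [h1]
    exact Submodule.add_mem _ h h'
  | smul c F _ h =>
    have h1 : mix e (contrM ω ee) ((c • F).domDomCongr r.symm) =
        c • mix e (contrM ω ee) (F.domDomCongr r.symm) := by
      ext v
      rw [_root_.smul_apply, mix_apply, mix_apply]
      exact mul_left_comm _ _ _
    rw [h1]
    exact Submodule.smul_mem _ _ h

/-- **The Mumford-Tate conjecture for products.** -/
theorem mt_product (halt : ∀ v, ω v v = 0) (hnd : ∀ u, (∀ v, ω u v = 0) → u = 0)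
    (hω : ∀ g x y, ω (ρ g x) (ρ g y) = χ g * ω x y)
    (hω₀ : IsHodgeBilinear per ω₀) (hωω : ∀ x y, ω (comp x) (comp y) = ((ω₀ x y : ℚ) : k))
    (hSI : StronglyIrr (bcr ρ Ω)) {γ : Γ} (hχ : χ γ = 1) (hτ : τ γ = 1)
    (hin : GoodElement (bcr ρ Ω) γ) (hB : MumfordTate per' comp' τ χ) :
    MumfordTate (per.prodMap per') (comp.prodMap comp') (sumRep ρ τ) χ := by
  classical
  intro j φ hφ
  have h1 : ∀ s : Finset (Fin j × Fin 2), ∃ F ∈ HodgeSpan (k := k) (per.prodMap per')
      (comp.prodMap comp') j, ∀ v, F v = compo s φ (fun p => (v (spl s (Sum.inl p))).1)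
        (fun q => (v (spl s (Sum.inr q))).2) := by
    intro s
    have hcard : Fintype.card {i // i ∈ s} + Fintype.card {i // ¬ i ∈ s} = 2 * j := by
      have h2 := Fintype.card_congr (spl s)
      simp only [Fintype.card_sum, Fintype.card_fin, Fintype.card_prod] at h2
      omega
    obtain ⟨n, m, ee, ψ, hψ, hsum⟩ := tate_product (Ω := Ω) halt hnd hω hSI hχ hτ hin hcard
      (compo_tate (ρ := ρ) (τ := τ) (χ := χ) s hφ)
    refine ⟨∑ t, mix (spl s) (contrM ω (ee t)) (ψ t), Submodule.sum_mem _ fun t _ => ?_,
      fun v => ?_⟩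
    · have hm := Fintype.card_congr (ee t)
      simp only [Fintype.card_prod, Fintype.card_fin] at hm
      have hr : Fintype.card (Fin (Fintype.card {i // ¬ i ∈ s})) =
          Fintype.card (Fin (j - m) × Fin 2) := by
        simp only [Fintype.card_prod, Fintype.card_fin]
        omega
      let r := Fintype.equivOfCardEq hr
      have h2 : (ψ t).domDomCongr r ∈ HodgeSpan (k := k) per' comp' (j - m) := by
        refine hB (j - m) _ ?_
        obtain ⟨Δ, hΔ, h3⟩ := hψ t
        exact ⟨Δ, hΔ, fun g hg v => h3 g hg fun q => v (r q)⟩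
      have h3 := mix_hodge (ω := ω) (comp := comp) hω₀ hωω (spl s) (ee t) r h2
      have h4 : ((ψ t).domDomCongr r).domDomCongr r.symm = ψ t := by
        ext v
        exact congrArg (ψ t) (funext fun i => congrArg v (r.symm_apply_apply i))
      rwa [h4] at h3
    · rw [_root_.sum_apply, hsum]
      rfl
  choose F hF hFv using h1
  have h2 : φ = ∑ s, F s := by
    ext v
    rw [decomp φ v, _root_.sum_apply]
    exact Finset.sum_congr rfl fun s _ => (hFv s v).symm
  rw [h2]
  exact Submodule.sum_mem _ fun s _ => hF s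

end main

end Pool.Agent.TH118.TP
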